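import Pool.Agent.Y691.TU.Sem

/-!
# The semisimplicity conjecture and cubic hypersurfaces
-/

set_option autoImplicit false

open CategoryTheory CategoryTheory.Limits AlgebraicGeometry Pool.Agent.Y116.UV
  Pool.Agent.Y101.Th Pool.Agent.Y691.TU

namespace Pool.Agent.Results.MP_8f1292_ag.CubicHypersurfaces

universe v u w

/-- **The semisimplicity conjecture and cubic hypersurfaces.** Let `K` be a number field (or any field
of characteristic zero for which `curves` is known), `C` the category of motives for absolute Hodge
cycles over `K`, `D` the graded pieces `gr^W_w H^j_c(X)` as objects of `C`, and `F` the `p`-adic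
realisation, with their known properties; `curves` is the known case of curves (Faltings). The
representations of the pieces of the smooth affine cubic hypersurface `t(x, y, z) = 1` are semisimple
for every trilinear form `t` over `K` with a block of at most three variables. For each `n` the
cohomology of all smooth projective schemes of dimension at most `n` is semisimple if and only if
the pieces of `t(x, y, z) = 1` are semisimple for all `t` with a block of at most `n + 2`
variables. -/
theorem result {K : Type} [Field K] [CharZero K] {C : Type u} [Category.{v} C] [Abelian C]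
    {D : Graded K C} {Ω G : Type} [Field Ω] [Group G] (F : Realisation.{v, u, w} C Ω G)
    [F.Additive] (hk : Resolution K) (hC : Semisimple C) (hD : IsGraded D)
    (hF : TwistLattice F D.L)
    (curves : ∀ X : Sch K, SmProj X → topologicalKrullDim X.left ≤ 1 → ∀ i,
      IsSemisimpleModule (MonoidAlgebra Ω G) (F.obj (D.H X i i))) :
    (∀ (a b c : ℕ) (t : Fin a → Fin b → Fin c → K), (a ≤ 3 ∨ b ≤ 3 ∨ c ≤ 3) → ∀ w j,
      IsSemisimpleModule (MonoidAlgebra Ω G) (F.obj (D.H (hypS t) w j))) ∧
    (∀ n : ℕ,
      (∀ X : Sch K, SmProj X → topologicalKrullDim X.left ≤ n → ∀ i,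
          IsSemisimpleModule (MonoidAlgebra Ω G) (F.obj (D.H X i i))) ↔
        ∀ (a b c : ℕ) (t : Fin a → Fin b → Fin c → K), (a ≤ n + 2 ∨ b ≤ n + 2 ∨ c ≤ n + 2) →
          ∀ w j, IsSemisimpleModule (MonoidAlgebra Ω G) (F.obj (D.H (hypS t) w j))) ∧
    ((∀ X : Sch K, SmProj X → ∀ i, IsSemisimpleModule (MonoidAlgebra Ω G) (F.obj (D.H X i i))) ↔
      ∀ (a b c : ℕ) (t : Fin a → Fin b → Fin c → K) (w j : ℤ),
        IsSemisimpleModule (MonoidAlgebra Ω G) (F.obj (D.H (hypS t) w j))) := by
  have h1 : SemiAt F D.one := unit_of hk hD (Q := fun _ => SemiAt F)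
    (fun _ _ _ s r h hB => semi_summand F s r h hB)
    (fun X hX hd i => curves X hX (hd.trans zero_le_one) i)
  have hQ := stable_semi F hF h1
  exact ⟨(cubic_dim hk hC hD hQ 1).mp (by exact_mod_cast curves), cubic_dim hk hC hD hQ,
    cubic_all hk hC hD hQ⟩

end Pool.Agent.Results.MP_8f1292_ag.CubicHypersurfaces
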