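import Mathlib
import Pool.Agent.Y114.RM.All3

/-!
# Semisimplicity at every prime `ℓ` from one Frobenius torus of maximal rank

Let `M i` be finitely many pure motives over a number field `F` (summands of the cohomology groups
`H ^ m (X)` of smooth projective varieties), `ρ i` the action of the absolute Galois group of `F` on the
`ℓ`-adic realization of `M i`, pure of weight `w i`, and `V` the direct sum of the realizations.  Let
`G` be a reductive subgroup of the product of the groups `GL(V i)` which contains the image of a
subgroup of finite index of the Galois group, and `𝔤` its Lie algebra: for example the group of the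
similitudes of the forms on the `M i`, or the centralizer in it of algebraic or motivated endomorphisms
or correspondences, or the motivic Galois group.  The structure `IsMotivic ρ 𝔤` states
the properties of such Lie algebras: `𝔤` is a Lie algebra, it respects the direct sum, it is reductive
(trace form nondegenerate, completely reducible on `V`), it consists of all endomorphisms which kill
the tensors killed by `𝔤`, and these tensors are Tate tensors (fixed by a subgroup of finite index of
the Galois group).

Suppose that there are three primes `p ≠ ℓ`, unramified in `F`, such that the `M i` have good reduction
at the places above `p`, with Frobenius polynomials in `ℚ[X]` which are pure, and that for ONE place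
`v₀` of good reduction, above one of these primes `p₀`, the Frobenius torus has the rank of `𝔤`: there
are `r` multiplicatively independent numbers among the Frobenius eigenvalues at `v₀`, and the rank of
`𝔤` is at most `r`.  If there are several places `v` above `p₀`, suppose that they are independent: if
a product of numbers `x v` in the groups generated by the quotients `a / b` of the roots of the
Frobenius polynomials at `v` is a root of unity, then all `x v` are roots of unity.  (There is nothing
to suppose if `F = ℚ`, or if there is only one place above `p₀`.)

Theorem.  Then `V` is semisimple for all subgroups of finite index of the Galois group.  The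
Lie algebra `𝔥` of the endomorphisms of `V` which kill all Tate tensors is a reductive subalgebra of
`𝔤` with the same rank.

For `𝔤 = 𝔤𝔰𝔭` or `𝔤𝔬` and one summand of dimension `n` the condition says that `1 + [n / 2]` Frobenius
eigenvalues at `v₀` are multiplicatively independent.  The theorem is for all groups, that is, the
relations between the Frobenius eigenvalues which come from algebraic cycles or other tensors
are allowed: for example for groups of type `G₂`, for spin representations, or for exterior
squares the eigenvalues at every place satisfy relations of the kind which is excluded in the
criteria for semisimplicity which use only the form.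

The proof.  Let `L` be the Lie algebra of the endomorphisms which preserve all subspaces stable
under a subgroup of finite index and kill all Tate tensors.  The determinant of the adjoint action on
`L` is a character with algebraic Frobenius values of absolute value one at three primes; so its
transfer to `ℚ` is of finite order (this uses the `ℓ`-adic six exponentials theorem, library
`Pool.Agent.Y115`) and, by the independence of the places above `p₀`, its value at the Frobenius of
`v₀` is a root of unity.  The Lie algebra `t` of the Frobenius torus at `v₀` is contained in `L`, and it
is its own centralizer in `𝔤`.  As the elements of `t` act with trace zero on `L`, for every root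
vector in `L` the `sl₂`-triple is in `L` (a subspace stable under `e` and `h` on which `h` has trace
zero is stable under `f`), so that the trace form of `L` is nondegenerate, and `V` is completely
reducible under `L` (Weyl).  Finally the elements of the Galois group act with finite order on the
centralizer of `L`, so that a subgroup of finite index commutes with the projections.
-/

set_option autoImplicit false

namespace Pool.Agent.Results.MP_8f1292_ag.MaximalFrobeniusTorus

open NumberField IsDedekindDomain Polynomial Module Pool.Agent.Y114.TF Pool.Agent.Y114.GF
  Pool.Agent.Y114.MU Pool.Agent.Y114.RM Pool.Agent.H204R3.GP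

theorem result {F : Type} [Field F] [NumberField F] {ι : Type} [Fintype ι] [DecidableEq ι]
    {n : ι → ℕ} {ℓ : ℕ} [Fact ℓ.Prime]
    -- the `ℓ`-adic realizations, of weights `w i`
    (ρ : Reps Gal(AlgebraicClosure F/F) n ℓ) (hρ : Conts ρ) (w : ι → ℤ)
    -- the Lie algebra of the motivic Galois group, or of another reductive group
    (𝔤 : EndSpace n ℓ) (h𝔤 : Motivic ρ 𝔤)
    -- three primes of good reduction
    (P : HeightOneSpectrum (𝓞 F) → ι → ℚ[X]) (T : Set ℕ) (hT3 : 3 ≤ T.encard)
    (hT : ∀ p ∈ T, p.Prime ∧ p ≠ ℓ ∧ UnramifiedIn F p)
    (hP : ∀ p ∈ T, ∀ v, Above v p → ∀ i, GoodReduction ρ i (w i) v (P v i))
    -- one Frobenius torus of maximal rank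
    (p₀ : ℕ) (hp₀ : p₀ ∈ T) (hind : IndependentPlaces P p₀)
    (v₀ : HeightOneSpectrum (𝓞 F)) (hv₀ : Above v₀ p₀)
    (r : ℕ) (hr : IndepRoots r (Set.range (P v₀))) (hrank : RankLE 𝔤 r) :
    Semisimple ρ ∧ ∃ 𝔥 : EndSpace n ℓ, KillsTateTensors ρ 𝔥 ∧ ReductiveOfRank 𝔤 𝔥 r := by
  obtain ⟨𝔥, -, -, h1, h2, h3, h4, h5, h6, -⟩ := semi_main ρ inputs inputs2 inputs3.rank hρ 𝔤 h𝔤 P T
    hT3 hT (fun p hp v hv => goodPlace_of ρ (hP p hp v hv)) hp₀ hind hv₀ r
    (independentRoots_range hr) hrank
  exact ⟨h1, 𝔥, h2, h3, h5, h6, h4⟩

end Pool.Agent.Results.MP_8f1292_ag.MaximalFrobeniusTorus
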