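import Pool.Agent.Y115.Final

/-!
# Semisimplicity for every `ℓ` from finitely many Frobenius polynomials
-/

set_option autoImplicit false

namespace Pool.Agent.Results.MP_8f1292_ag.RelationFreeFrobenius

open NumberField IsDedekindDomain Polynomial Matrix Module

section places
variable {F : Type} [Field F] [NumberField F]

/-- The place `v` of `F` lies above the prime number `p`. -/
def Above (v : HeightOneSpectrum (𝓞 F)) (p : ℕ) : Prop := (p : 𝓞 F) ∈ v.asIdeal

variable (F) in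
/-- The prime number `p` is unramified in `F`. -/
def UnramifiedIn (p : ℕ) : Prop :=
  ∀ v : HeightOneSpectrum (𝓞 F), Above v p → (p : 𝓞 F) ∉ v.asIdeal ^ 2

/-- `q v` is the number of elements of the residue field of `v`. -/
noncomputable abbrev q (v : HeightOneSpectrum (𝓞 F)) : ℕ := Ideal.absNorm v.asIdeal

/-- `Q` is a prime ideal above `v` of the ring of all algebraic integers in the algebraic
closure of `F`. -/
def PrimeOver (Q : Ideal (𝓞 (AlgebraicClosure F))) (v : HeightOneSpectrum (𝓞 F)) : Prop :=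
  Q.IsPrime ∧ Q.comap (algebraMap (𝓞 F) (𝓞 (AlgebraicClosure F))) = v.asIdeal

/-- A choice `A v` of `k` numbers for every place `v` of `F` above `p` (a multiset of size `k`)
such that the product of all these numbers is `p ^ (w * k * [F : ℚ] / 2)`, up to a root of unity. -/
def IsRelation (A : HeightOneSpectrum (𝓞 F) → Multiset ℂ) (w : ℤ) (p k : ℕ) : Prop :=
  (∀ v, Above v p → Multiset.card (A v) = k) ∧ ∃ N : ℕ, 0 < N ∧
    (∏ᶠ (v : HeightOneSpectrum (𝓞 F)) (_ : Above v p), (A v).prod) ^ (2 * N) =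
      (p : ℂ) ^ (w * k * finrank ℚ F * N)

end places

section data
variable {F E : Type} [Field F] [NumberField F] [Field E] [NumberField E]
  {𝕂 : Type} [NormedField 𝕂] {n : ℕ}

/-- There is a relation of size `k` at `p` for which the numbers in `A v`, together with the
numbers `q v ^ w / a` for `a` in `A v`, are roots of `P v` (with multiplicities). -/
def IsotropicRelation (P : HeightOneSpectrum (𝓞 F) → E[X]) (ι : E →+* ℂ) (w : ℤ)
    (p k : ℕ) : Prop :=
  ∃ A, IsRelation A w p k ∧ ∀ v, Above v p →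
    A v + (A v).map (fun a => (q v : ℂ) ^ w / a) ≤ ((P v).map ι).roots

/-- `P v` has only simple roots, and no quotient of two of them is a root of unity. -/
def Neat (P : E[X]) (ι : E →+* ℂ) : Prop :=
  ∀ a b : ℂ, ({a, b} : Multiset ℂ) ≤ (P.map ι).roots → ∀ N : ℕ, 0 < N → a ^ N ≠ b ^ N

/-- The matrix of `g`. -/
noncomputable def mat (ρ : Gal(AlgebraicClosure F/F) →* GL (Fin n) 𝕂) (g : Gal(AlgebraicClosure F/F)) :
    Matrix (Fin n) (Fin n) 𝕂 := (ρ g : GL (Fin n) 𝕂)

/-- The representation `ρ` is unramified at `v`, every geometric Frobenius element at `v` has the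
characteristic polynomial `P`, with coefficients in `E`, and `P` is pure of weight `w`. -/
structure GoodAt (ρ : Gal(AlgebraicClosure F/F) →* GL (Fin n) 𝕂) (τ : E →+* 𝕂) (ι : E →+* ℂ)
    (w : ℤ) (v : HeightOneSpectrum (𝓞 F)) (P : E[X]) : Prop where
  unramified : ∀ Q, PrimeOver Q v → ∀ g : Gal(AlgebraicClosure F/F),
    (∀ x : 𝓞 (AlgebraicClosure F), g • x - x ∈ Q) → ρ g = 1
  frobenius : ∀ Q, PrimeOver Q v → ∀ g : Gal(AlgebraicClosure F/F),
    (∀ x : 𝓞 (AlgebraicClosure F), g • x - x ^ q v ∈ Q) → (mat ρ g⁻¹).charpoly = P.map τ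
  pure : ∀ a ∈ (P.map ι).roots, ‖a‖ ^ 2 = (q v : ℝ) ^ w

/-- `W` is stable under the Galois group. -/
def Stable (ρ : Gal(AlgebraicClosure F/F) →* GL (Fin n) 𝕂) (W : Submodule 𝕂 (Fin n → 𝕂)) :
    Prop := ∀ g, ∀ x ∈ W, mat ρ g *ᵥ x ∈ W

/-- Every stable subspace has a stable complement. -/
def Semisimple (ρ : Gal(AlgebraicClosure F/F) →* GL (Fin n) 𝕂) : Prop :=
  ∀ W, Stable ρ W → ∃ W', Stable ρ W' ∧ IsCompl W W'

/-- There is a non-degenerate symmetric or alternating bilinear form, with matrix `J`, such that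
`(gx, gy) = χ(g) ^ (-w) (x, y)` for the `ℓ`-adic cyclotomic character `χ`. -/
def Polarized (ℓ : ℕ) [Fact ℓ.Prime] [NormedAlgebra ℚ_[ℓ] 𝕂]
    (ρ : Gal(AlgebraicClosure F/F) →* GL (Fin n) 𝕂) (w : ℤ) : Prop :=
  ∃ J : Matrix (Fin n) (Fin n) 𝕂, J.det ≠ 0 ∧ (Jᵀ = J ∨ Jᵀ = -J) ∧
    ∀ g : Gal(AlgebraicClosure F/F), (mat ρ g)ᵀ * J * mat ρ g =
      (algebraMap ℚ_[ℓ] 𝕂 (cyclotomicCharacter (AlgebraicClosure F) ℓ g : ℤ_[ℓ])) ^ (-w) • J

end data

/-- **Semisimplicity for every `ℓ`, from the Frobenius polynomials at finitely many places.**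

Let `ρ` be an `n`-dimensional continuous representation of the absolute Galois group of a number
field `F` over a finite extension `𝕂` of `ℚ_ℓ`, with a polarization. Let `T` be a set of at least
three prime numbers `≠ ℓ`, unramified in `F`, such that `ρ` is good and pure of weight `w` at all
places above the `p ∈ T`, with Frobenius polynomials `P v` over a number field `E` with embeddings
`τ : E → 𝕂` and `ι : E → ℂ`. (Example: `H^w(X, ℚ_ℓ)` for `X` smooth and projective over `F`, with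
`E = ℚ`, or a self-dual part of it cut out by a projector with coefficients in `E`.)

If for every `0 < k ≤ n / 2` some `p ∈ T` has no isotropic relation of size `k`, then `ρ` is
semisimple. In particular this holds if `n ≤ 5` and for some `p ∈ T` there is only one place `v`
above `p` (as is always the case if `F = ℚ`) and `P v` is neat. -/
theorem result {F E : Type} [Field F] [NumberField F] [Field E] [NumberField E]
    (ℓ : ℕ) [Fact ℓ.Prime] {𝕂 : Type} [NormedField 𝕂] [NormedAlgebra ℚ_[ℓ] 𝕂]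
    [FiniteDimensional ℚ_[ℓ] 𝕂] {n : ℕ} (ρ : Gal(AlgebraicClosure F/F) →* GL (Fin n) 𝕂)
    (hρ : Continuous ρ) (τ : E →+* 𝕂) (ι : E →+* ℂ) (w : ℤ)
    (P : HeightOneSpectrum (𝓞 F) → E[X]) (T : Set ℕ) (hT3 : 3 ≤ T.encard)
    (hT : ∀ p ∈ T, p.Prime ∧ p ≠ ℓ ∧ UnramifiedIn F p)
    (hP : ∀ p ∈ T, ∀ v, Above v p → GoodAt ρ τ ι w v (P v)) (hpol : Polarized ℓ ρ w)
    (hrel : (∀ k, 0 < k → 2 * k ≤ n → ∃ p ∈ T, ¬ IsotropicRelation P ι w p k) ∨
      (n ≤ 5 ∧ ∃ p ∈ T, ∃ v, (∀ v', Above v' p ↔ v' = v) ∧ Neat (P v) ι)) :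
    Semisimple ρ := by
  have hgood := fun p hp v hv (Q : Ideal (𝓞 (AlgebraicClosure F))) hQ hQv =>
    And.intro ((hP p hp v hv).unramified Q ⟨hQ, hQv⟩) ((hP p hp v hv).frobenius Q ⟨hQ, hQv⟩)
  have hpure := fun p hp v hv => (hP p hp v hv).pure
  have hrel' : ∀ k, 0 < k → 2 * k ≤ n → ∃ p ∈ T, ¬ IsotropicRelation P ι w p k := by
    rcases hrel with h | ⟨hn, p, hp, v, hv, hneat⟩
    · exact h
    · refine fun k hk hkn => ⟨p, hp, fun ⟨A, hA, hA'⟩ => ?_⟩
      exact Pool.Agent.Y115.M.neat_not_iso P ι w (hT p hp).1 (hT p hp).2.2 hv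
        (hpure p hp v ((hv v).2 rfl)) hneat hk (by omega)
        ⟨A, fun v hv => ⟨hA.1 v hv, hA' v hv⟩, hA.2⟩
  obtain ⟨J, hJ, hsym, hJρ⟩ := hpol
  intro W hW
  refine Pool.Agent.Y115.M.compl_of ℓ ρ hρ w τ ι T hT3 hT P hgood hpure J hJ hsym hJρ
    (fun k hk hkn => ?_) W hW
  obtain ⟨p, hp, hno⟩ := hrel' k hk hkn
  refine ⟨p, hp, fun ⟨A, hA, hprod⟩ => hno ⟨A, ⟨fun v hv => (hA v hv).1, hprod⟩,
    fun v hv => (hA v hv).2⟩⟩

end Pool.Agent.Results.MP_8f1292_ag.RelationFreeFrobenius
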