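import Pool.Agent.Y712.AJ.Ss

/-!
# The semisimplicity conjecture and intersection forms on Tate classes of rational varieties

Let `p` be a prime and `M` an infinite set of natural numbers. We prove: the representations
`H^i(X, ℚ_p)` of the Galois groups `G_F` are semisimple for **all** smooth projective varieties `X` over
**all** number fields `F` and all `i` if and only if for all `m ∈ M` and all **rational** varieties `B` over
`ℚ`, of dimension `2 m`, which are blow-ups of a projective space in one smooth centre, the intersection
form on the space of the **Tate classes** in the **middle** cohomology `H^(2 m)(B, ℚ_p(m))`, that is on its
invariants under the Galois group of `ℚ`, is nondegenerate.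

So if the conjecture fails for one motive over one number field, then there is a rational variety `B` over
`ℚ`, of dimension `2 m` as large as one likes, and a nonzero Galois-invariant class in
`H^(2 m)(B, ℚ_p(m))` which is orthogonal to all Galois-invariant classes.

Proof. By induction of representations we may assume `F = ℚ`. Let `S` be a stable subspace of
`V = H^i(X)`, of dimension `s`. The exterior product `a` of a basis of `S` spans a stable line in
`H^(s i)(X^s)`; some power of its character is a power of the cyclotomic character, so some exterior power
`a ⊠ … ⊠ a` is a Tate class on a power of `X`, which appears in the middle cohomology of blow-ups `B` of all
large projective spaces `ℙ^(2 m)` in one centre. An invariant class on `B` which is not orthogonal to it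
gives an equivariant alternating form of degree `s` on `V`, up to the character of the line, which does not
vanish on `S`, and this gives an equivariant projection to `S`.
-/

namespace Pool.Agent.Results.MP_8f1292_ag.TateClassForms

open Pool.Agent.Y712.Ss

/-- **The `p`-adic cohomology of all smooth projective varieties over all number fields is semisimple
if and only if the intersection form is nondegenerate on the space of the Tate classes in the middle
cohomology of the blow-ups of the projective spaces of dimension `2 m` over `ℚ` in one smooth centre,
`m` in any infinite set `M`.** -/
theorem result {p : ℕ} [Fact p.Prime] {D : Data ℚ_[p]} (h : IsCohomology D) {M : Set ℕ}
    (hM : M.Infinite) : AllSemisimple D ↔ MiddleTate D M :=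
  main h hM

end Pool.Agent.Results.MP_8f1292_ag.TateClassForms
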